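import Pool.Agent.Y687.N.Defs
import Pool.Agent.Z125.C1B

/-! Project NEG (helper687), job NEG-C1B: the character sum over the cusps for a factorization
(adapted from `Pool.Agent.Z125.C1B`). -/

set_option autoImplicit false

namespace Pool.Agent.Y888.N

open Finset Pool.Agent.Z700 Pool.Agent.Y687.N
open Pool.Agent.Z125 (dsr jac_congr jac_ne_zero jac_zero jac_sq)

section gen

theorem prod_dvd_int {n : ℕ} (hn : Squarefree n) {x : ℤ}
    (h : ∀ p ∈ n.primeFactors, (p : ℤ) ∣ x) : (n : ℤ) ∣ x := by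
  rw [Int.natCast_dvd]
  have h1 : ∏ p ∈ n.primeFactors, p ∣ x.natAbs :=
    Finset.prod_primes_dvd x.natAbs (fun p hp => (Nat.prime_of_mem_primeFactors hp).prime)
      fun p hp => Int.natCast_dvd.1 (h p hp)
  rwa [Nat.prod_primeFactors_of_squarefree hn] at h1

theorem jac_prod {P : Finset ℕ} (hP : ∀ p ∈ P, p.Prime) (x : ℤ) :
    jacobiSym x (∏ p ∈ P, p) = ∏ p ∈ P, jacobiSym x p := by
  classical
  induction P using Finset.induction_on with
  | empty => simp
  | insert p P hp ih =>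
    have h1 : (∏ q ∈ P, q) ≠ 0 := Finset.prod_ne_zero_iff.2 fun q hq =>
      (hP q (mem_insert_of_mem hq)).ne_zero
    rw [Finset.prod_insert hp, jacobiSym.mul_right' _ (hP p (mem_insert_self _ _)).ne_zero h1,
      Finset.prod_insert hp, ih fun q hq => hP q (mem_insert_of_mem hq)]

theorem jac_n {n : ℕ} (hn : Squarefree n) (x : ℤ) :
    jacobiSym x n = ∏ p ∈ n.primeFactors, jacobiSym x p := by
  rw [← jac_prod (fun p hp => Nat.prime_of_mem_primeFactors hp),
    Nat.prod_primeFactors_of_squarefree hn]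

theorem not_sq {n p : ℕ} (hn : Squarefree n) (hp : p.Prime) : ¬ p ^ 2 ∣ n := by
  intro h
  rw [pow_two] at h
  exact hp.one_lt.ne' (Nat.isUnit_iff.1 (hn p h))

end gen

section local_

variable {p a a' X Y : ℕ} (hp : p.Prime)

include hp in
theorem local_eq (h2 : ¬ p ^ 2 ∣ a * Y + a' * X)
    (u : ℤ) (h5 : (p : ℤ) ∣ a * u - X) (h6 : (p : ℤ) ∣ a' * u + Y) (_h7 : ¬ (p : ℤ) ∣ u) :
    jacobiSym u p = psn p a a' Y X := by
  have hpp := Nat.prime_iff_prime_int.1 hp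
  unfold psn
  by_cases ha : p ∣ a
  · have haz : (p : ℤ) ∣ a := by exact_mod_cast ha
    have hX : p ∣ X := by
      have : (p : ℤ) ∣ X := dsr (Dvd.dvd.mul_right haz u) h5
      exact_mod_cast this
    rw [if_pos ⟨ha, hX⟩]
    have ha' : ¬ (p : ℤ) ∣ a' := by
      intro ha'
      have hY : (p : ℤ) ∣ Y := (Int.dvd_add_right (Dvd.dvd.mul_right ha' u)).1 h6
      apply h2
      have hY' : p ∣ Y := by exact_mod_cast hY
      have ha'' : p ∣ a' := by exact_mod_cast ha'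
      rw [pow_two]
      exact dvd_add (mul_dvd_mul ha hY') (mul_dvd_mul ha'' hX)
    have h8 : (p : ℤ) ∣ -((a' * Y : ℕ) : ℤ) - a' * a' * u := by
      have : -((a' * Y : ℕ) : ℤ) - a' * a' * u = -(a' * (a' * u + Y)) := by push_cast; ring
      rw [this]
      exact (Dvd.dvd.mul_left h6 _).neg_right
    rw [jac_congr h8, jacobiSym.mul_left, jacobiSym.mul_left, jac_sq hp ha', one_mul]
  · rw [if_neg (fun h => ha h.1)]
    have haz : ¬ (p : ℤ) ∣ a := by exact_mod_cast ha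
    have h8 : (p : ℤ) ∣ ((a * X : ℕ) : ℤ) - a * a * u := by
      have : ((a * X : ℕ) : ℤ) - a * a * u = -(a * (a * u - X)) := by push_cast; ring
      rw [this]
      exact (Dvd.dvd.mul_left h5 _).neg_right
    rw [jac_congr h8, jacobiSym.mul_left, jacobiSym.mul_left, jac_sq hp haz, one_mul]

include hp in
theorem local_ex (h3 : p ∣ a * Y + a' * X) (hpsp : psn p a a' Y X ≠ 0) :
    ∃ u : ℕ, (p : ℤ) ∣ a * u - X ∧ (p : ℤ) ∣ a' * u + Y ∧ ¬ (p : ℤ) ∣ u := by
  have hpp := Nat.prime_iff_prime_int.1 hp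
  have : Fact p.Prime := ⟨hp⟩
  have hinv : ∀ x : ℕ, ¬ p ∣ x → ∃ y : ℕ, (p : ℤ) ∣ x * y - 1 := by
    intro x hx
    refine ⟨((x : ZMod p)⁻¹).val, ?_⟩
    rw [← ZMod.intCast_zmod_eq_zero_iff_dvd]
    push_cast
    rw [ZMod.natCast_zmod_val, mul_inv_cancel₀, sub_self]
    rw [Ne, ZMod.natCast_eq_zero_iff]
    exact hx
  unfold psn at hpsp
  split_ifs at hpsp with h
  · obtain ⟨ha, hX⟩ := h
    have h5 : ¬ (p : ℤ) ∣ ((a' * Y : ℕ) : ℤ) := fun h => hpsp (jac_zero hp h.neg_right)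
    have h6 : ¬ p ∣ a' * Y := by exact_mod_cast h5
    have ha' : ¬ p ∣ a' := fun h => h6 (Dvd.dvd.mul_right h _)
    have hY : ¬ p ∣ Y := fun h => h6 (Dvd.dvd.mul_left h _)
    obtain ⟨y, hy⟩ := hinv a' ha'
    have hyp : ¬ (p : ℤ) ∣ y := by
      intro h
      have h1 : (p : ℤ) ∣ 1 := dsr (Dvd.dvd.mul_left h _) hy
      exact hpp.not_dvd_one h1
    have hp1 : (((p - 1 : ℕ) : ℕ) : ℤ) = p - 1 := by
      have := hp.one_lt
      omega
    refine ⟨y * Y * (p - 1), ?_, ?_, ?_⟩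
    · exact dvd_sub (Dvd.dvd.mul_right (by exact_mod_cast ha) _) (by exact_mod_cast hX)
    · have : (a' : ℤ) * ((y * Y * (p - 1) : ℕ) : ℤ) + Y =
          p * (a' * y * Y) - (a' * y - 1) * Y := by
        push_cast
        rw [hp1]
        ring
      rw [this]
      exact dvd_sub (Dvd.intro _ rfl) (Dvd.dvd.mul_right hy _)
    · push_cast
      rw [hp1]
      intro h
      rcases hpp.dvd_or_dvd h with h | h
      · rcases hpp.dvd_or_dvd h with h | h
        · exact hyp h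
        · exact hY (by exact_mod_cast h)
      · have h1 : (p : ℤ) ∣ 1 := dsr (dvd_refl (p : ℤ)) h
        exact hpp.not_dvd_one h1
  · have h5 : ¬ (p : ℤ) ∣ ((a * X : ℕ) : ℤ) := fun h => hpsp (jac_zero hp h)
    have h6 : ¬ p ∣ a * X := by exact_mod_cast h5
    have ha : ¬ p ∣ a := fun h => h6 (Dvd.dvd.mul_right h _)
    have hX : ¬ p ∣ X := fun h => h6 (Dvd.dvd.mul_left h _)
    obtain ⟨y, hy⟩ := hinv a ha
    have hyp : ¬ (p : ℤ) ∣ y := by
      intro h
      have h1 : (p : ℤ) ∣ 1 := dsr (Dvd.dvd.mul_left h _) hy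
      exact hpp.not_dvd_one h1
    have haz : ¬ (p : ℤ) ∣ a := by exact_mod_cast ha
    have e1 : (p : ℤ) ∣ a * ((y * X : ℕ) : ℤ) - X := by
      have : (a : ℤ) * ((y * X : ℕ) : ℤ) - X = (a * y - 1) * X := by
        push_cast
        ring
      rw [this]
      exact Dvd.dvd.mul_right hy _
    refine ⟨y * X, e1, ?_, ?_⟩
    · have h7 : (p : ℤ) ∣ a * (a' * ((y * X : ℕ) : ℤ) + Y) := by
        have : (a : ℤ) * (a' * ((y * X : ℕ) : ℤ) + Y) =
          a' * (a * ((y * X : ℕ) : ℤ) - X) + ((a * Y + a' * X : ℕ) : ℤ) := by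
          push_cast; ring
        rw [this]
        exact dvd_add (Dvd.dvd.mul_left e1 _) (by exact_mod_cast h3)
      rcases hpp.dvd_or_dvd h7 with h8 | h8
      · exact absurd h8 haz
      · exact h8
    · push_cast
      intro h
      rcases hpp.dvd_or_dvd h with h | h
      · exact hyp h
      · exact hX (by exact_mod_cast h)

include hp in
theorem local_uniq (h2 : ¬ p ^ 2 ∣ a * Y + a' * X)
    (u w : ℤ) (h5 : (p : ℤ) ∣ a * u - X) (h6 : (p : ℤ) ∣ a' * u + Y)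
    (h5' : (p : ℤ) ∣ a * w - X) (h6' : (p : ℤ) ∣ a' * w + Y) : (p : ℤ) ∣ u - w := by
  have hpp := Nat.prime_iff_prime_int.1 hp
  have h7 : (p : ℤ) ∣ a * (u - w) := by
    have : (a : ℤ) * (u - w) = (a * u - X) - (a * w - X) := by ring
    rw [this]; exact dvd_sub h5 h5'
  have h8 : (p : ℤ) ∣ a' * (u - w) := by
    have : (a' : ℤ) * (u - w) = (a' * u + Y) - (a' * w + Y) := by ring
    rw [this]; exact dvd_sub h6 h6'
  rcases hpp.dvd_or_dvd h7 with ha | h
  · rcases hpp.dvd_or_dvd h8 with ha' | h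
    · exfalso
      have hX : (p : ℤ) ∣ X := dsr (Dvd.dvd.mul_right ha u) h5
      have hY : (p : ℤ) ∣ Y := (Int.dvd_add_right (Dvd.dvd.mul_right ha' u)).1 h6
      apply h2
      rw [pow_two]
      exact dvd_add (mul_dvd_mul (by exact_mod_cast ha) (by exact_mod_cast hY))
        (mul_dvd_mul (by exact_mod_cast ha') (by exact_mod_cast hX))
    · exact h
  · exact h

end local_

theorem t_C1B : Pool.Agent.Y687.N.S_C1B := by
  classical
  intro n _hodd hsq a a' X Y hdet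
  have hn0 : n ≠ 0 := hsq.ne_zero
  have hm : 0 < n := Nat.pos_of_ne_zero hn0
  set F := (un n).filter (fun u : ℕ => (n : ℤ) ∣ (a : ℤ) * (u : ℤ) - (X : ℤ) ∧
    (n : ℤ) ∣ (a' : ℤ) * (u : ℤ) + (Y : ℤ)) with hF
  set P := n.primeFactors with hPd
  have hP : ∀ p ∈ P, p.Prime := fun p hp => Nat.prime_of_mem_primeFactors hp
  have hdn : ∀ p ∈ P, p ∣ n := fun p hp => Nat.dvd_of_mem_primeFactors hp
  have hdp : ∀ p ∈ P, (p : ℤ) ∣ (n : ℤ) := fun p hp => by exact_mod_cast hdn p hp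
  have h2 : ∀ p ∈ P, ¬ p ^ 2 ∣ a * Y + a' * X := fun p hp => by
    rw [hdet]; exact not_sq hsq (hP p hp)
  have h3 : ∀ p ∈ P, p ∣ a * Y + a' * X := fun p hp => by
    rw [hdet]; exact hdn p hp
  have hmem : ∀ u ∈ F, u < n ∧ ∀ p ∈ P, (p : ℤ) ∣ a * (u : ℤ) - X ∧
      (p : ℤ) ∣ a' * (u : ℤ) + Y ∧ ¬ (p : ℤ) ∣ (u : ℤ) := by
    intro u hu
    rw [hF, Finset.mem_filter, un, Finset.mem_filter, Finset.mem_range] at hu
    obtain ⟨⟨hu1, hu2⟩, hu3, hu4⟩ := hu
    refine ⟨hu1, fun p hp => ⟨(hdp p hp).trans hu3, (hdp p hp).trans hu4, fun h => ?_⟩⟩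
    have h5 : p ∣ u := by exact_mod_cast h
    have h6 : p ∣ Nat.gcd u n := Nat.dvd_gcd h5 (hdn p hp)
    rw [hu2] at h6
    exact (hP p hp).one_lt.ne' (Nat.dvd_one.1 h6)
  have hval : ∀ u ∈ F, jacobiSym u n = ∏ p ∈ P, psn p a a' Y X := by
    intro u hu
    rw [jac_n hsq]
    refine Finset.prod_congr rfl fun p hp => ?_
    obtain ⟨h5, h6, h7⟩ := (hmem u hu).2 p hp
    exact local_eq (hP p hp) (h2 p hp) u h5 h6 h7
  by_cases hz : ∃ p ∈ P, psn p a a' Y X = 0
  · obtain ⟨p, hp, hp0⟩ := hz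
    have hFe : F = ∅ := by
      rw [Finset.eq_empty_iff_forall_notMem]
      intro u hu
      obtain ⟨h5, h6, h7⟩ := (hmem u hu).2 p hp
      have h8 := local_eq (hP p hp) (h2 p hp) u h5 h6 h7
      rw [hp0] at h8
      exact jac_ne_zero (hP p hp) h7 h8
    rw [hFe, Finset.sum_empty]
    exact (Finset.prod_eq_zero hp hp0).symm
  · push Not at hz
    have hex : ∀ p : ℕ, ∃ u : ℕ, p ∈ P → (p : ℤ) ∣ a * u - X ∧ (p : ℤ) ∣ a' * u + Y ∧
        ¬ (p : ℤ) ∣ u := by
      intro p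
      by_cases hp : p ∈ P
      · obtain ⟨u, hu⟩ := local_ex (hP p hp) (h3 p hp) (hz p hp)
        exact ⟨u, fun _ => hu⟩
      · exact ⟨0, fun h => absurd h hp⟩
    choose f hf using hex
    obtain ⟨w, hw⟩ := Nat.chineseRemainderOfFinset f (fun p => p) P
      (fun p hp => (hP p hp).ne_zero) (by
        intro p hp q hq hpq
        exact (Nat.coprime_primes (hP p hp) (hP q hq)).2 hpq)
    set u := w % n with hu
    have hup : ∀ p ∈ P, (p : ℤ) ∣ (u : ℤ) - f p := by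
      intro p hp
      have h5 : u ≡ f p [MOD p] := by
        refine Nat.ModEq.trans ?_ (hw p hp)
        exact (Nat.mod_modEq w n).of_dvd (hdn p hp)
      have h6 := (Nat.modEq_iff_dvd.1 h5)
      have : (u : ℤ) - f p = -((f p : ℤ) - u) := by ring
      rw [this]
      exact h6.neg_right
    have hloc : ∀ p ∈ P, (p : ℤ) ∣ a * (u : ℤ) - X ∧ (p : ℤ) ∣ a' * (u : ℤ) + Y ∧
        ¬ (p : ℤ) ∣ (u : ℤ) := by
      intro p hp
      obtain ⟨h5, h6, h7⟩ := hf p hp
      have h8 := hup p hp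
      refine ⟨?_, ?_, fun h => h7 ?_⟩
      · have : (a : ℤ) * (u : ℤ) - X = a * ((u : ℤ) - f p) + (a * f p - X) := by ring
        rw [this]; exact dvd_add (Dvd.dvd.mul_left h8 _) h5
      · have : (a' : ℤ) * (u : ℤ) + Y = a' * ((u : ℤ) - f p) + (a' * f p + Y) := by ring
        rw [this]; exact dvd_add (Dvd.dvd.mul_left h8 _) h6
      · exact dsr h h8
    have huF : u ∈ F := by
      rw [hF, Finset.mem_filter, un, Finset.mem_filter, Finset.mem_range]
      refine ⟨⟨Nat.mod_lt _ hm, ?_⟩, prod_dvd_int hsq fun p hp => (hloc p hp).1,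
        prod_dvd_int hsq fun p hp => (hloc p hp).2.1⟩
      rw [Nat.coprime_iff_gcd_eq_one]
      by_contra hg
      obtain ⟨p, hp, hpg⟩ := Nat.exists_prime_and_dvd hg
      have hpn : p ∣ n := hpg.trans (Nat.gcd_dvd_right _ _)
      have hpu : p ∣ u := hpg.trans (Nat.gcd_dvd_left _ _)
      exact (hloc p (Nat.mem_primeFactors.2 ⟨hp, hpn, hn0⟩)).2.2 (by exact_mod_cast hpu)
    have hFs : F = {u} := by
      rw [Finset.eq_singleton_iff_unique_mem]
      refine ⟨huF, fun v hv => ?_⟩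
      obtain ⟨hv1, hv2⟩ := hmem v hv
      have h5 : (n : ℤ) ∣ (v : ℤ) - u := prod_dvd_int hsq fun p hp =>
        local_uniq (hP p hp) (h2 p hp) v u (hv2 p hp).1 (hv2 p hp).2.1 (hloc p hp).1
          (hloc p hp).2.1
      have h6 : v ≡ u [MOD n] := by
        rw [Nat.modEq_iff_dvd]
        have : (u : ℤ) - v = -((v : ℤ) - u) := by ring
        rw [this]; exact h5.neg_right
      have h7 : v % n = u % n := h6
      rw [Nat.mod_eq_of_lt hv1, Nat.mod_eq_of_lt (Nat.mod_lt _ hm)] at h7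
      exact h7
    rw [hFs, Finset.sum_singleton]
    exact hval u huF

end Pool.Agent.Y888.N
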